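import Mathlib
import Pool.Agent.Lib.MP_1d3ef4_gt.Residue

/-!
# An elliptic surface with an action of the alternating group on five letters

The surface `W : Y ^ 2 Z = X ^ 3 + f(s, t) Z ^ 3`, `f = s t (s ^ 10 + 11 s ^ 5 t ^ 5 - t ^ 10)`,
carries a faithful action of the alternating group on five letters which covers the icosahedral
action on the projective line. All but finitely many fibres have trivial stabilisers, so a general
smooth fibre has sixty disjoint translates.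
-/

namespace Pool.Agent.Results.MP_1d3ef4_gt.IcosahedralFibration

open Matrix MvPolynomial Pool.Agent.Lib.MP_1d3ef4_gt
open scoped MatrixGroups LinearAlgebra.Projectivization

theorem mk_eq {M N : SL(2, ℂ)}
    (h : (M : Matrix.ProjectiveSpecialLinearGroup (Fin 2) ℂ) = N) : N = M ∨ N = -M := by
  have h1 : M⁻¹ * N ∈ Subgroup.center (SL(2, ℂ)) := QuotientGroup.eq.mp h
  rw [Matrix.SpecialLinearGroup.mem_center_iff] at h1
  obtain ⟨r, hr, hr'⟩ := h1
  have h2 : (r - 1) * (r + 1) = 0 := by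
    simp at hr
    rcases hr with hr | hr <;> rw [hr] <;> norm_num
  rcases mul_eq_zero.mp h2 with h | h
  · left
    have h3 : r = 1 := by linear_combination h
    rw [h3, map_one] at hr'
    have h4 : M⁻¹ * N = 1 := Subtype.ext hr'.symm
    exact (inv_mul_eq_one.mp h4).symm
  · right
    have h3 : r = -1 := by linear_combination h
    rw [h3, map_neg, map_one] at hr'
    have h4 : M⁻¹ * N = -1 := by
      apply Subtype.ext
      rw [← hr', Matrix.SpecialLinearGroup.coe_neg, Matrix.SpecialLinearGroup.coe_one]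
    rw [inv_mul_eq_iff_eq_mul] at h4
    rw [h4, mul_neg, mul_one]

theorem rho_inj : Function.Injective rho := by
  rw [injective_iff_map_eq_one]
  intro g hg
  obtain ⟨x, rfl⟩ := homA_surj g
  rw [rho_homA] at hg
  have h1 : ((1 : SL(2, ℂ)) : Matrix.ProjectiveSpecialLinearGroup (Fin 2) ℂ) = x.1.1 := hg.symm
  have h2 : R 1 x.1.2.1 := by
    rcases mk_eq h1 with h | h
    · rw [← h]
      exact x.2
    · have := R_neg x.2
      rw [h, neg_neg] at this
      exact this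
  have h3 : R 1 1 := R_one
  have h4 : x.1.2.1 = 1 := R_perm h2 h3
  exact Subtype.ext h4

theorem smul_base (g : alternatingGroup (Fin 5)) (w : W) : base (phi g w) = rho g • base w := by
  obtain ⟨x, rfl⟩ := homA_surj g
  rw [phi_homA, rho_homA]
  obtain ⟨c, rfl⟩ := Quotient.exists_rep w
  rfl

theorem fixed (g : alternatingGroup (Fin 5)) (hg : g ≠ 1) :
    {p : ℙ ℂ (Fin 2 → ℂ) | rho g • p = p}.Finite := by
  obtain ⟨x, rfl⟩ := homA_surj g
  have h1 : x.1.1 ≠ 1 := by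
    intro h
    apply hg
    apply rho_inj
    rw [rho_homA, map_one]
    change ((x.1.1 : SL(2, ℂ)) : Matrix.ProjectiveSpecialLinearGroup (Fin 2) ℂ) = 1
    rw [h]
    rfl
  have h2 : x.1.1 ≠ -1 := by
    intro h
    apply hg
    apply rho_inj
    rw [rho_homA, map_one]
    change ((x.1.1 : SL(2, ℂ)) : Matrix.ProjectiveSpecialLinearGroup (Fin 2) ℂ) = 1
    rw [h, QuotientGroup.eq_one_iff]
    exact neg_one_mem_center
  rw [rho_homA]
  exact fixed_finite h1 h2

theorem base_surj : Function.Surjective base := by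
  intro p
  induction p using Projectivization.ind with | _ v hv
  have hn : (![0, 1, 0] : Fin 3 → ℂ) ≠ 0 := by
    intro h
    have := congrFun h 1
    simp at this
  exact ⟨pt ⟨v, ![0, 1, 0], hv, hn, by rw [eval_eqn]; simp⟩, rfl⟩

theorem pres_of_eq {M N : SL(2, ℂ)} (hN : Pres N) (h : N = M ∨ N = -M) : Pres M := by
  rcases h with h | h
  · rwa [← h]
  · intro u
    have := hN u
    rw [h, Matrix.SpecialLinearGroup.coe_neg, Matrix.neg_mulVec] at this
    rw [← this]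
    simp only [Pi.neg_apply]
    unfold fm
    ring

theorem pres_rho {g : alternatingGroup (Fin 5)} {M : SL(2, ℂ)}
    (hM : (M : Matrix.ProjectiveSpecialLinearGroup (Fin 2) ℂ) = rho g) : Pres M := by
  obtain ⟨x, rfl⟩ := homA_surj g
  rw [rho_homA] at hM
  exact pres_of_eq (PP_form x) (mk_eq (M := M) (N := x.1.1) hM)

theorem phi_pt {g : alternatingGroup (Fin 5)} {M : SL(2, ℂ)}
    (hM : (M : Matrix.ProjectiveSpecialLinearGroup (Fin 2) ℂ) = rho g) {c d : Cone} {l m : ℂ}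
    (hl : l ≠ 0) (hm : m ≠ 0) (hu : d.u = l • (M.1 *ᵥ c.u))
    (hv : d.v = ![m * l ^ 4 * c.v 0, m * l ^ 6 * c.v 1, m * c.v 2]) :
    phi g (pt c) = pt d := by
  have hp : Pres M := pres_rho hM
  have e : pt (act M hp c) = pt d := pt_eq.mpr ⟨l, m, hl, hm, hu, hv⟩
  rw [← e]
  obtain ⟨x, rfl⟩ := homA_surj g
  rw [rho_homA] at hM
  have h1 := mk_eq (M := M) (N := x.1.1) hM
  rw [phi_homA]
  change actW x.1.1 (PP_form x) (pt c) = actW M hp (pt c)
  have hx := PP_form x
  rcases h1 with h | h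
  · have : ∀ (N : SL(2, ℂ)) (_ : N = M) (hN : Pres N), actW N hN (pt c) = actW M hp (pt c) := by
      rintro N rfl hN
      rfl
    exact this _ h _
  · have : ∀ (N : SL(2, ℂ)) (_ : N = -M) (hN : Pres N), actW N hN (pt c) = actW M hp (pt c) := by
      rintro N rfl hN
      exact actW_neg M hp hN _
    exact this _ h _

/-- The surface `W : Y ^ 2 Z = X ^ 3 + f(s, t) Z ^ 3` is compact and Hausdorff, its equation is
smooth; the twelve fibres over the zeros of `f` have one singular point each and the others are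
smooth; the alternating group on five letters acts on `W` by maps `(u, v) ↦ (M u, v)` over a
faithful action on the line, nontrivial elements fix only points of a finite set `B`, and the
action preserves the residue `ω`, which is nondegenerate. -/
theorem result :
    CompactSpace W ∧ T2Space W ∧ Function.Surjective base ∧ (∀ c : Cone, grad c ≠ 0) ∧
    ∃ (ρ : alternatingGroup (Fin 5) →* Matrix.ProjectiveSpecialLinearGroup (Fin 2) ℂ)
      (φ : alternatingGroup (Fin 5) →* (W ≃ₜ W)) (Z B : Set (ℙ ℂ (Fin 2 → ℂ)))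
      (ω : Cone → (Fin 2 ⊕ Fin 3 → ℂ) → (Fin 2 ⊕ Fin 3 → ℂ) → ℂ),
      Function.Injective ρ ∧ Z.ncard = 12 ∧ B.Finite ∧ Z ⊆ B ∧
      (∀ (u : Fin 2 → ℂ) (hu : u ≠ 0), Projectivization.mk ℂ u hu ∈ Z ↔
        u 0 * u 1 * (u 0 ^ 10 + 11 * u 0 ^ 5 * u 1 ^ 5 - u 1 ^ 10) = 0) ∧
      (∀ c : Cone, (∀ i : Fin 3, grad c (Sum.inr i) = 0) ↔
        base (pt c) ∈ Z ∧ c.v 0 = 0 ∧ c.v 1 = 0) ∧
      (∀ g p, ρ g • p = p → g = 1 ∨ p ∈ B) ∧
      (∀ g w, base (φ g w) = ρ g • base w) ∧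
      (∀ (c : Cone) (N ξ η : Fin 2 ⊕ Fin 3 → ℂ), ξ ⬝ᵥ grad c = 0 → η ⬝ᵥ grad c = 0 →
        (rows (e1 c) (e2 c) N ξ η).det = (N ⬝ᵥ grad c) * ω c ξ η) ∧
      (∀ (c : Cone) (ξ : Fin 2 ⊕ Fin 3 → ℂ), ξ ⬝ᵥ grad c = 0 →
        (∀ η : Fin 2 ⊕ Fin 3 → ℂ, η ⬝ᵥ grad c = 0 → ω c ξ η = 0) →
          ∃ a b : ℂ, ξ = a • e1 c + b • e2 c) ∧
      ∀ g (M : SL(2, ℂ)), (M : Matrix.ProjectiveSpecialLinearGroup (Fin 2) ℂ) = ρ g →
        (∀ c : Cone, ∃ d : Cone, d.u = M.1 *ᵥ c.u ∧ d.v = c.v) ∧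
        ∀ (c d : Cone) (l m : ℂ), l ≠ 0 → m ≠ 0 → d.u = l • (M.1 *ᵥ c.u) →
          d.v = ![m * l ^ 4 * c.v 0, m * l ^ 6 * c.v 1, m * c.v 2] →
          φ g (pt c) = pt d ∧
          ∀ ξ η : Fin 2 ⊕ Fin 3 → ℂ, ξ ⬝ᵥ grad c = 0 → η ⬝ᵥ grad c = 0 →
            ω d (lin l m M ξ) (lin l m M η) = ω c ξ η := by
  refine ⟨compact_W, t2_W, base_surj, grad_ne, rho, phi, Zs,
    Zs ∪ ⋃ g : {g : alternatingGroup (Fin 5) // g ≠ 1}, {p | rho g.1 • p = p}, om,
    rho_inj, Zs_card, ?_, Set.subset_union_left, fun u hu => mem_Zs hu, fibre_sing, ?_,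
    smul_base, om_spec, om_nondeg, fun g M hM => ⟨fun c => ⟨act M (pres_rho hM) c, rfl, rfl⟩,
      fun c d l m hl hm hu hv => ⟨phi_pt hM hl hm hu hv, fun ξ η hξ hη =>
        om_lin hl hm (pres_rho hM) hu hv hξ hη⟩⟩⟩
  · exact Zs_fin.union (Set.finite_iUnion fun g => fixed g.1 g.2)
  · intro g p h
    by_cases hg : g = 1
    · exact Or.inl hg
    · exact Or.inr (Or.inr (Set.mem_iUnion.mpr ⟨⟨g, hg⟩, h⟩))

end Pool.Agent.Results.MP_1d3ef4_gt.IcosahedralFibration
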